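import Pool.Agent.Lib_MP_99eb35_ag.Cliff

/-!
# Green's conjecture fails for 4-connected reduced Gorenstein curves

For every field `k` of characteristic zero there is a connected nodal curve `C` over `k`, with
six components, all isomorphic to `ℙ¹`, glued along the graph of the octahedron, which is
4-connected, not hyperelliptic, of arithmetic genus `7`, with `Cliff(C) ≤ 2` (witness:
`𝒪_A ⊕ 𝒪_R`, `R` one component and `A` the union of the five others, `A · R = 4`), but with
`K_{3,1}(C, ω_C) = 0`, although `3 < p_a(C) - Cliff(C) - 1`.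

The definitions are in `Pool.Agent.Lib_MP_99eb35_ag.Defs`.
-/

namespace Pool.Agent.Results.MP_99eb35_ag.OctahedralCurve

open Pool.Agent.MP_99eb35_ag

/-- The equivalence `K_{p,1}(C, ω_C) = 0 ↔ p ≥ p_a(C) - Cliff(C) - 1` fails for some
4-connected non-hyperelliptic `C`, at `p = 3`, whichever meaning (`tors`) of the restriction of a
torsion free sheaf to a component is used in the definition of the Clifford index. -/
theorem result (k : Type*) [Field k] [CharZero k] :
    ∃ C : LineCurve k, C.IsConnected ∧ C.IsMConnected 4 ∧ ¬ C.IsHyperelliptic ∧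
      C.arithGenus Finset.univ = 7 ∧ (∀ tors : Bool, C.cliff tors ≤ 2) ∧
      C.KoszulVanishes 2 0 ∧
      ∀ tors : Bool, ¬ (C.KoszulVanishes 2 0 ↔
        (3 : ℤ) ≥ C.arithGenus Finset.univ - C.cliff tors - 1) := by
  have hcliff : ∀ tors : Bool, (oct k).cliff tors ≤ 2 := by
    intro tors
    cases tors
    · exact octF0_cliff
    · exact octF1_cliff
  have hg : (oct k).arithGenus Finset.univ = 7 := by
    rw [LineCurve.arithGenus, oct_chiO]
    norm_num
  refine ⟨oct k, ⟨⟨(0 : Fin 6)⟩, oct_connected⟩, oct_inter, ?_, hg, hcliff, oct_koszulVanishes,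
    fun tors h => ?_⟩
  · rintro ⟨s, t, -, -, h3, h4⟩
    have h5 : ∑ i : Fin 6, 1 ≤ ∑ i : Fin 6, max (s i).natDegree (t i).natDegree :=
      Finset.sum_le_sum fun i _ => h3 i
    have h6 : ∑ i : Fin 6, max (s i).natDegree (t i).natDegree = 2 := h4
    simp at h5
    omega
  · have h1 := h.mp oct_koszulVanishes
    have h2 := hcliff tors
    rw [hg] at h1
    omega

end Pool.Agent.Results.MP_99eb35_ag.OctahedralCurve
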